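import Pool.Agent.H61.TL.T5M
import Pool.Agent.H77.TL.Num.C2D00
import Pool.Agent.H77.TL.Num.C2A00
import Pool.Agent.H77.TL.Num.C2B00

/-!
# Crew TL, part C2XM (helper61)
-/

set_option autoImplicit false

namespace Pool.MP324.H61

open Pool.MP324

theorem lp66 (x : ℝ) (hx : 66 / 100 ≤ x) : 8 / 11 ≤ lp x := by
  unfold lp Real.logb
  rw [le_div_iff₀ log2pos]
  have h1 : Real.log (1.66 : ℝ) ≤ Real.log (1 + x) :=
    Real.log_le_log (by norm_num) (by linarith)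
  have h2 : (8 : ℝ) * Real.log 2 ≤ 11 * Real.log 1.66 := by
    have h3 : Real.log ((2 : ℝ) ^ 8) ≤ Real.log ((1.66 : ℝ) ^ 11) := by
      apply Real.log_le_log (by positivity)
      norm_num
    rw [Real.log_pow, Real.log_pow] at h3
    push_cast at h3
    exact h3
  linarith

theorem C2XM_proved (hLIN : S_LIN) (hMUL : S_MUL) (hINV : S_Rinv) (hPARD : S_PARc2D)
    (hPARE : S_PARc2E)
    (hCH : S_CH) (hLG : S_LG) (hD : S_AC2D) (hE : S_AC2E) : S_C2X := by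
  intro m x hm hx hx1
  have hlp := lp66 x hx
  have hmp0 : 0 < mp m x := by linarith
  have hm1 : 73 / 100 + 8 / 11 ≤ m := by
    unfold mp at hm
    linarith
  have hm0 : 0 < m := by linarith
  have hx0 : 0 < x := by linarith
  have hμ : 0 < 1 / (m + 1) := by positivity
  have hμc : 1 / (m + 1) * 4096 ≤ (1668 : ℕ) := by
    rw [one_div, inv_mul_le_iff₀ (by linarith)]
    push_cast
    linarith
  by_cases h1 : x ≤ (4092 : ℕ) / 4096
  · apply hD m x hmp0 hx0 hx1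
    obtain ⟨R1, R2, a, b, μc, yc, X1, X2, X3, X4, hd, r1, r2, r3, r4, hF⟩ :=
      drvD hCH hLG FC2D 1668 2703 dataC2D00 (by norm_num) chunkC2D00 4092 endC2D00 (by norm_num)
        (by norm_num) (1 / (m + 1)) x hμ.le hμc (by push_cast; linarith) h1
    have h := hPARD R1 R2 a b hd X1 X2 X3 X4 Ac Al2 Ak μc yc (lp yc) (- lm yc) cc (Real.log 2)
      (33 / 5) (1 / (m + 1)) x (lp x) (- lm x) cc (Real.log 2) (33 / 5) r1 r2 r3 r4
      (rel_c hLIN a b) (rel_l2 hLIN a b) (rel_k hLIN a b)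
    exact hMUL.2 R1 R2 a b hd _ _ _ h hF
  push Not at h1
  have hye : 4092 / 4096 ≤ x := by
    push_cast at h1
    exact h1.le
  apply hE m x hmp0 hx0 hx1
  obtain ⟨-, hL0, hio, hz0, hz1, e1, e2, e3⟩ := edge_facts m x 1668 hm0 hye hx1 hμc
  set μ := 1 / (m + 1) with hμd
  set io := 1 / (- lm x) with hiod
  set ze := 1 / (1 + μ * (- lm x)) with hzed
  have hio0 : 0 < io := by positivity
  by_cases hz : ze ≤ (2048 : ℕ) / 4096
  · obtain ⟨R1, R2, a, b, μc, zc, X1, X2, hd, r1, r2, hF⟩ :=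
      drvA FC2A 1668 410 0 dataC2A00 (by norm_num) (by norm_num) chunkC2A00 2048 endC2A00
        (by norm_num) (by norm_num) μ io ze hμ.le hμc hio e1 (by simpa using hz0.le) hz
    have q1 := hLIN.2.2.2.1 a b _ _ _ _ _ _ (hLIN.2.1 a b 1) r2
    have q2 := hINV R1 R2 a b hd _ _ _ q1
    have q3 := hMUL.1 R1 R2 a b hd _ _ _ _ _ _ r1 r2
    have q4 := hMUL.1 R1 R2 a b hd _ _ _ _ _ _ q3 q2
    rw [show μ * ze * (((1 : ℤ) : ℝ) - ze)⁻¹ = io by rw [Int.cast_one]; exact e2] at q4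
    have q5 := hLIN.2.2.1 a b _ _ _ _ _ _ q4 r1
    have h := hPARE R1 R2 a b hd X1 _ X2 _ Ade Alp Ac Al2 Ak _ _ _ _ _ _ _ _ _
      _ _ _ _ _ _ _ _ _ r1 q4 r2 q5
      (rel_de hLIN a b (1 - x) (by linarith) (by linarith)) (rel_lp hLIN a b x hye hx1)
      (rel_c hLIN a b) (rel_l2 hLIN a b) (rel_k hLIN a b)
    exact hMUL.2 R1 R2 a b hd _ _ _ h hF
  · push Not at hz
    obtain ⟨R1, R2, a, b, ic, zc, X1, X2, hd, r1, r2, hF⟩ :=
      drvB FC2B 410 2048 dataC2B00 (by norm_num) chunkC2B00 4096 endC2B00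
        (by norm_num) io ze hio0.le hio hz.le (by
          push_cast
          linarith)
    have q1 := hLIN.2.2.2.1 a b _ _ _ _ _ _ (hLIN.2.1 a b 1) r2
    have q2 := hINV R1 R2 a b hd _ _ _ r2
    have q3 := hMUL.1 R1 R2 a b hd _ _ _ _ _ _ r1 q1
    have q4 := hMUL.1 R1 R2 a b hd _ _ _ _ _ _ q3 q2
    rw [show io * (((1 : ℤ) : ℝ) - ze) * ze⁻¹ = μ by rw [Int.cast_one]; exact e3] at q4
    have q5 := hLIN.2.2.1 a b _ _ _ _ _ _ r1 q4
    have h := hPARE R1 R2 a b hd _ X1 X2 _ Ade Alp Ac Al2 Ak _ _ _ _ _ _ _ _ _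
      _ _ _ _ _ _ _ _ _ q4 r1 r2 q5
      (rel_de hLIN a b (1 - x) (by linarith) (by linarith)) (rel_lp hLIN a b x hye hx1)
      (rel_c hLIN a b) (rel_l2 hLIN a b) (rel_k hLIN a b)
    exact hMUL.2 R1 R2 a b hd _ _ _ h hF

end Pool.MP324.H61
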