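import Pool.Agent.H61.TL.DrvG
import Pool.Agent.H77.TL.Num.T5D00
import Pool.Agent.H77.TL.Num.T5D01
import Pool.Agent.H77.TL.Num.T5A00
import Pool.Agent.H77.TL.Num.T5B00

/-!
# Crew TL, part T5M (helper61)
-/

set_option autoImplicit false

namespace Pool.MP324.H61

open Pool.MP324

theorem t5D_pos (hLIN : S_LIN) (hMUL : S_MUL) (hPAR : S_PARt5D)
    (hCH : S_CH) (hLG : S_LG) (j0 e : ℕ) (l : List (ℕ × List ℕ))
    (hs : stripsG (okCap 2368) (stripD FT5D) j0 l = true)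
    (he : stripsEnd j0 l = e) (he1 : e ≤ 4095) (hlt : j0 < e) (μ y : ℝ) (hμ : 0 ≤ μ)
    (hμc : μ * 4096 ≤ (2368 : ℕ)) (hy0 : (j0 : ℝ) / 4096 ≤ y) (hy1 : y ≤ (e : ℝ) / 4096) :
    0 < t5D opsR μ y (lp y) (- lm y) cc (Real.log 2) (33 / 5) := by
  obtain ⟨R1, R2, a, b, μc, yc, X1, X2, X3, X4, hd, r1, r2, r3, r4, hF⟩ :=
    drvD hCH hLG FT5D 2368 j0 l (by norm_num) hs e he he1 hlt μ y hμ hμc hy0 hy1
  have h := hPAR R1 R2 a b hd X1 X2 X3 X4 Ac Al2 Ak μc yc (lp yc) (- lm yc) cc (Real.log 2) (33 / 5)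
    μ y (lp y) (- lm y) cc (Real.log 2) (33 / 5) r1 r2 r3 r4 (rel_c hLIN a b) (rel_l2 hLIN a b)
    (rel_k hLIN a b)
  exact hMUL.2 R1 R2 a b hd _ _ _ h hF

theorem edge_facts (m y : ℝ) (cap : ℕ) (hm : 0 < m) (hy : 4092 / 4096 ≤ y) (hy1 : y < 1)
    (hcap : 1 / (m + 1) * 4096 ≤ cap) :
    0 < 1 / (m + 1) ∧ 0 < - lm y ∧ 1 / (- lm y) * 4096 ≤ (410 : ℕ) ∧
    0 < 1 / (1 + 1 / (m + 1) * (- lm y)) ∧ 1 / (1 + 1 / (m + 1) * (- lm y)) < 1 ∧
    1 / (m + 1) * (1 / (1 + 1 / (m + 1) * (- lm y))) =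
      1 / (- lm y) * (1 - 1 / (1 + 1 / (m + 1) * (- lm y))) ∧
    1 / (m + 1) * (1 / (1 + 1 / (m + 1) * (- lm y))) *
      (1 - 1 / (1 + 1 / (m + 1) * (- lm y)))⁻¹ = 1 / (- lm y) ∧
    1 / (- lm y) * (1 - 1 / (1 + 1 / (m + 1) * (- lm y))) *
      (1 / (1 + 1 / (m + 1) * (- lm y)))⁻¹ = 1 / (m + 1) := by
  obtain ⟨hL, -⟩ := L_ge y hy hy1
  have hμ : 0 < 1 / (m + 1) := by positivity
  set μ := 1 / (m + 1) with hμd
  set L := - lm y with hLd
  have hL0 : 0 < L := by linarith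
  have hd : 0 < 1 + μ * L := by positivity
  have h1 : 1 / (1 + μ * L) < 1 := by
    rw [div_lt_one hd]
    have : 0 < μ * L := by positivity
    linarith
  have h2 : 1 - 1 / (1 + μ * L) = μ * L / (1 + μ * L) := by
    field_simp
    ring
  refine ⟨hμ, hL0, ?_, by positivity, h1, ?_, ?_, ?_⟩
  · rw [one_div, inv_mul_le_iff₀ hL0]
    push_cast
    linarith
  · rw [h2]
    field_simp
  · rw [h2]
    field_simp
  · rw [h2]
    field_simp

theorem T5M_proved (hLIN : S_LIN) (hMUL : S_MUL) (hINV : S_Rinv) (hPARD : S_PARt5D)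
    (hPARE : S_PARt5E)
    (hCH : S_CH) (hLG : S_LG) (hD : S_AT5D) (hE : S_AT5E) : S_T5 := by
  intro m y hm hy hy1
  have hm0 : 0 < m := by linarith
  have hy0 : 0 < y := by linarith
  have hμ : 0 < 1 / (m + 1) := by positivity
  have hμc : 1 / (m + 1) * 4096 ≤ (2368 : ℕ) := by
    rw [one_div, inv_mul_le_iff₀ (by linarith)]
    push_cast
    linarith
  by_cases h1 : y ≤ (4046 : ℕ) / 4096
  · apply hD m y hm0 hy0 hy1
    exact t5D_pos hLIN hMUL hPARD hCH hLG 2703 4046 dataT5D00 chunkT5D00 endT5D00 (by norm_num)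
      (by norm_num) _ y hμ.le hμc (by push_cast; linarith) h1
  push Not at h1
  by_cases h2 : y ≤ (4092 : ℕ) / 4096
  · apply hD m y hm0 hy0 hy1
    exact t5D_pos hLIN hMUL hPARD hCH hLG 4046 4092 dataT5D01 chunkT5D01 endT5D01 (by norm_num)
      (by norm_num) _ y hμ.le hμc h1.le h2
  push Not at h2
  have hye : 4092 / 4096 ≤ y := by
    push_cast at h2
    exact h2.le
  apply hE m y hm0 hy0 hy1
  obtain ⟨-, hL0, hio, hz0, hz1, e1, e2, e3⟩ := edge_facts m y 2368 hm0 hye hy1 hμc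
  have hdz := dz_le y (1 / (m + 1)) hye hy1 hμ (by push_cast at hμc; exact hμc)
  have hdz0 : 0 ≤ (1 - y) / (1 / (1 + 1 / (m + 1) * (- lm y))) ^ 2 := by
    have : 0 ≤ 1 - y := by linarith
    positivity
  set μ := 1 / (m + 1) with hμd
  set io := 1 / (- lm y) with hiod
  set ze := 1 / (1 + μ * (- lm y)) with hzed
  have hio0 : 0 < io := by positivity
  by_cases hz : ze ≤ (2048 : ℕ) / 4096
  · obtain ⟨R1, R2, a, b, μc, zc, X1, X2, hd, r1, r2, hF⟩ :=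
      drvA FT5A 2368 410 0 dataT5A00 (by norm_num) (by norm_num) chunkT5A00 2048 endT5A00
        (by norm_num) (by norm_num) μ io ze hμ.le hμc hio e1 (by simpa using hz0.le) hz
    have q1 := hLIN.2.2.2.1 a b _ _ _ _ _ _ (hLIN.2.1 a b 1) r2
    have q2 := hINV R1 R2 a b hd _ _ _ q1
    have q3 := hMUL.1 R1 R2 a b hd _ _ _ _ _ _ r1 r2
    have q4 := hMUL.1 R1 R2 a b hd _ _ _ _ _ _ q3 q2
    rw [show μ * ze * (((1 : ℤ) : ℝ) - ze)⁻¹ = io by rw [Int.cast_one]; exact e2] at q4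
    have q5 := hLIN.2.2.1 a b _ _ _ _ _ _ q4 r1
    have h := hPARE R1 R2 a b hd X1 _ X2 _ Ade AdzA Alp Ac Al2 Ak _ _ _ _ _ _ _ _ _ _
      _ _ _ _ _ _ _ _ _ _ r1 q4 r2 q5
      (rel_de hLIN a b (1 - y) (by linarith) (by linarith))
      (rel_dzA hLIN a b _ hdz0 hdz) (rel_lp hLIN a b y hye hy1)
      (rel_c hLIN a b) (rel_l2 hLIN a b) (rel_k hLIN a b)
    exact hMUL.2 R1 R2 a b hd _ _ _ h hF
  · push Not at hz
    have hzz : 1 / 2 ≤ ze := by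
      push_cast at hz
      linarith
    obtain ⟨R1, R2, a, b, ic, zc, X1, X2, hd, r1, r2, hF⟩ :=
      drvB FT5B 410 2048 dataT5B00 (by norm_num) chunkT5B00 4096 endT5B00
        (by norm_num) io ze hio0.le hio hz.le (by
          push_cast
          linarith)
    have q1 := hLIN.2.2.2.1 a b _ _ _ _ _ _ (hLIN.2.1 a b 1) r2
    have q2 := hINV R1 R2 a b hd _ _ _ r2
    have q3 := hMUL.1 R1 R2 a b hd _ _ _ _ _ _ r1 q1
    have q4 := hMUL.1 R1 R2 a b hd _ _ _ _ _ _ q3 q2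
    rw [show io * (((1 : ℤ) : ℝ) - ze) * ze⁻¹ = μ by rw [Int.cast_one]; exact e3] at q4
    have q5 := hLIN.2.2.1 a b _ _ _ _ _ _ r1 q4
    have hdzB : (1 - y) / ze ^ 2 ≤ 4 / 1024 := by
      rw [div_le_iff₀ (by positivity)]
      have h3 : 1 / 4 ≤ ze ^ 2 := by nlinarith
      nlinarith
    have h := hPARE R1 R2 a b hd _ X1 X2 _ Ade AdzB Alp Ac Al2 Ak _ _ _ _ _ _ _ _ _ _
      _ _ _ _ _ _ _ _ _ _ q4 r1 r2 q5
      (rel_de hLIN a b (1 - y) (by linarith) (by linarith))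
      (rel_dzB hLIN a b _ hdz0 hdzB) (rel_lp hLIN a b y hye hy1)
      (rel_c hLIN a b) (rel_l2 hLIN a b) (rel_k hLIN a b)
    exact hMUL.2 R1 R2 a b hd _ _ _ h hF

end Pool.MP324.H61
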