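import Pool.Agent.H33.TL.TDrv
import Pool.Agent.H77.TL.Stm2

/-!
# Crew TL, parts T5M and C2XM (helper61): general drivers
-/

set_option autoImplicit false

namespace Pool.MP324.H61

open Pool.MP324

theorem stripsEnd_geG (ok : ℕ → List ℕ → Bool) (S : ℕ → ℕ → List ℕ → Bool) :
    ∀ (l : List (ℕ × List ℕ)) (j0 : ℕ),
    stripsG ok S j0 l = true → j0 ≤ stripsEnd j0 l := by
  intro l
  induction l with
  | nil => intro j0 _; exact le_refl _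
  | cons p l ih =>
    obtain ⟨j1, bs⟩ := p
    intro j0 h
    simp only [stripsG, Bool.and_eq_true] at h
    have h1 : j0 + 1 ≤ j1 := Nat.le_of_ble_eq_true h.1.1
    have h2 := ih j1 h.2.2
    change j0 ≤ stripsEnd j1 l
    omega

theorem strips_findG (ok : ℕ → List ℕ → Bool) (S : ℕ → ℕ → List ℕ → Bool) :
    ∀ (l : List (ℕ × List ℕ)) (j0 : ℕ),
    stripsG ok S j0 l = true → j0 < stripsEnd j0 l → ∀ y : ℝ, (j0 : ℝ) / 4096 ≤ y →
    y ≤ (stripsEnd j0 l : ℝ) / 4096 →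
    ∃ (j j1 : ℕ) (bs : List ℕ), j < j1 ∧ j1 ≤ stripsEnd j0 l ∧ (j : ℝ) / 4096 ≤ y ∧
      y ≤ (j1 : ℝ) / 4096 ∧ ok j bs = true ∧ S j j1 bs = true := by
  intro l
  induction l with
  | nil => intro j0 _ h; exact absurd h (lt_irrefl _)
  | cons p l ih =>
    obtain ⟨j1, bs⟩ := p
    intro j0 h _ y h1 h2
    simp only [stripsG, Bool.and_eq_true] at h
    have h3 : j0 + 1 ≤ j1 := Nat.le_of_ble_eq_true h.1.1
    change y ≤ (stripsEnd j1 l : ℝ) / 4096 at h2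
    by_cases h4 : y ≤ (j1 : ℝ) / 4096
    · exact ⟨j0, j1, bs, h3, stripsEnd_geG ok S l j1 h.2.2, h1, h4, h.1.2, h.2.1⟩
    · push Not at h4
      have h5 : j1 < stripsEnd j1 l := by
        have : (j1 : ℝ) / 4096 < (stripsEnd j1 l : ℝ) / 4096 := h4.trans_le h2
        have h6 : (j1 : ℝ) < (stripsEnd j1 l : ℝ) := by linarith
        exact_mod_cast h6
      exact ih j1 h.2.2 h5 y h4.le h2

theorem last_okCap (cap j : ℕ) (bs : List ℕ) (hcap : 0 < cap) (h : okCap cap j bs = true) (μ : ℝ)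
    (h1 : μ * 4096 ≤ cap) : bs ≠ [] ∧ μ * 4096 ≤ ((bs.getLastD 0 : ℕ) : ℝ) := by
  unfold okCap at h
  have h4 : cap ≤ bs.getLastD 0 := Nat.le_of_ble_eq_true h
  refine ⟨?_, h1.trans (by exact_mod_cast h4)⟩
  intro hb
  subst hb
  simp only [List.getLastD_nil] at h4
  omega

/-- chart A: `μ ζ = ι (1 - ζ)` -/
theorem last_okA (cap i0 z0 : ℕ) (bs : List ℕ) (hcap : 0 < cap) (hi0 : 0 < i0)
    (hz0 : z0 < 4096) (h : okA cap i0 z0 bs = true) (μ io ze : ℝ) (h0 : 0 ≤ μ)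
    (h1 : μ * 4096 ≤ cap) (hio : io * 4096 ≤ i0) (hze : (z0 : ℝ) / 4096 ≤ ze)
    (hze1 : ze ≤ 1) (hrel : μ * ze = io * (1 - ze)) :
    bs ≠ [] ∧ μ * 4096 ≤ ((bs.getLastD 0 : ℕ) : ℝ) := by
  unfold okA at h
  simp only [Bool.or_eq_true] at h
  rcases h with h | h
  · exact last_okCap cap z0 bs hcap h μ h1
  · have h4 : i0 * (4096 - z0) ≤ bs.getLastD 0 * z0 := Nat.le_of_ble_eq_true h
    have hz : 0 < z0 := by
      by_contra hc
      have : z0 = 0 := by omega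
      rw [this] at h4
      omega
    have hpos : 0 < i0 * (4096 - z0) := Nat.mul_pos hi0 (by omega)
    refine ⟨?_, ?_⟩
    · intro hb
      subst hb
      simp only [List.getLastD_nil] at h4
      omega
    · have h5 : (i0 : ℝ) * (4096 - (z0 : ℝ)) ≤ ((bs.getLastD 0 : ℕ) : ℝ) * (z0 : ℝ) := by
        have := (Nat.cast_le (α := ℝ)).2 h4
        rw [Nat.cast_mul, Nat.cast_mul, Nat.cast_sub hz0.le] at this
        exact_mod_cast this
      have hz' : (0 : ℝ) < z0 := by exact_mod_cast hz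
      have hi' : (0 : ℝ) < i0 := by exact_mod_cast hi0
      have h6 : μ * ((z0 : ℝ) / 4096) ≤ μ * ze := mul_le_mul_of_nonneg_left hze h0
      have h7 : io * (1 - ze) ≤ (i0 : ℝ) / 4096 * (1 - (z0 : ℝ) / 4096) := by
        have a1 : io ≤ (i0 : ℝ) / 4096 := by
          rw [le_div_iff₀ (by norm_num)]; exact hio
        have a2 : 1 - ze ≤ 1 - (z0 : ℝ) / 4096 := by linarith
        have a3 : 0 ≤ 1 - ze := by linarith
        exact mul_le_mul a1 a2 a3 (by positivity)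
      have h8 : μ * 4096 * (z0 : ℝ) ≤ ((bs.getLastD 0 : ℕ) : ℝ) * (z0 : ℝ) := by
        refine le_trans ?_ h5
        have e1 : μ * 4096 * (z0 : ℝ) = 4096 ^ 2 * (μ * ((z0 : ℝ) / 4096)) := by ring
        have e2 : (i0 : ℝ) * (4096 - (z0 : ℝ)) =
            4096 ^ 2 * ((i0 : ℝ) / 4096 * (1 - (z0 : ℝ) / 4096)) := by ring
        rw [e1, e2]
        apply mul_le_mul_of_nonneg_left _ (by positivity)
        linarith
      exact le_of_mul_le_mul_right h8 hz'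

theorem stripD_find (hch : S_CH) (hlg : S_LG) (F : ℕ → ℕ → A → A → A → A → Bool) (j j1 : ℕ)
    (bs : List ℕ) (hS : stripD F j j1 bs = true) (hj : j < j1) (hj1' : j1 ≤ 4095)
    (hbs : bs ≠ []) (μ y : ℝ) (hμ : 0 ≤ μ) (hμl : μ * 4096 ≤ ((bs.getLastD 0 : ℕ) : ℝ))
    (hyj : (j : ℝ) / 4096 ≤ y) (hyj1 : y ≤ (j1 : ℝ) / 4096) :
    ∃ (R1 R2 : ℕ) (a b μc yc : ℝ) (X1 X2 X3 X4 : A), Disp R1 R2 a b ∧
    Rel a b X1 μc μ ∧ Rel a b X2 yc y ∧ Rel a b X3 (lp yc) (lp y) ∧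
    Rel a b X4 (- lm yc) (- lm y) ∧ F R1 R2 X1 X2 X3 X4 = true := by
  unfold stripD at hS
  simp only at hS
  obtain ⟨R1, μc, X1, hR1, hX1, hF⟩ := box_lemma _ bs 0 hS hbs μ (by simpa using by positivity) hμl
  obtain ⟨y0, hy0'⟩ : ∃ y0 : ℕ, y0 = Nat.mul 262144 j := ⟨_, rfl⟩
  obtain ⟨y1, hy1'⟩ : ∃ y1 : ℕ, y1 = Nat.mul 262144 j1 := ⟨_, rfl⟩
  obtain ⟨yc, hyc'⟩ : ∃ yc : ℕ, yc = Nat.mul 131072 (Nat.add j j1) := ⟨_, rfl⟩
  obtain ⟨R2, hR2⟩ : ∃ R2 : ℕ, R2 = Nat.mul 131072 (Nat.sub j1 j) := ⟨_, rfl⟩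
  rw [← hy0', ← hy1', ← hyc', ← hR2] at hF
  have g0 : y0 = 262144 * j := hy0'
  have g1 : y1 = 262144 * j1 := hy1'
  have gc : yc = 131072 * (j + j1) := hyc'
  have g2 : R2 = 131072 * (j1 - j) := hR2
  have k1 : y0 < yc := by omega
  have k2 : yc < y1 := by omega
  have k3 : y1 < 2 ^ 30 := by omega
  have hsub : Set.Icc ((y0 : ℝ) / 2 ^ 30) ((y1 : ℝ) / 2 ^ 30) ⊆ Set.Ico 0 (1 : ℝ) := by
    intro z hz
    refine ⟨le_trans (by positivity) hz.1, lt_of_le_of_lt hz.2 ?_⟩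
    have : (y1 : ℝ) < 2 ^ 30 := by exact_mod_cast k3
    rw [div_lt_one (by positivity)]
    exact this
  have hyy : y ∈ Set.Icc ((y0 : ℝ) / 2 ^ 30) ((y1 : ℝ) / 2 ^ 30) := by
    have b0 : (y0 : ℝ) / 2 ^ 30 = (j : ℝ) / 4096 := by
      rw [g0]; push_cast; ring
    have b1 : (y1 : ℝ) / 2 ^ 30 = (j1 : ℝ) / 4096 := by
      rw [g1]; push_cast; ring
    rw [b0, b1]
    exact ⟨hyj, hyj1⟩
  have hcY : |y * 2 ^ 30 - (yc : ℝ)| ≤ (R2 : ℝ) := by
    have b2 : (R2 : ℝ) = 131072 * ((j1 : ℝ) - j) := by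
      rw [g2, Nat.cast_mul, Nat.cast_sub hj.le]; push_cast; ring
    have bc : (yc : ℝ) = 131072 * ((j : ℝ) + j1) := by
      rw [gc]; push_cast; ring
    rw [abs_le, b2, bc]
    constructor <;> nlinarith
  obtain ⟨s1, s2, s3, s4, s5, s6⟩ := hlg
  have k0 : y0 < 2 ^ 30 := by omega
  have kc : yc < 2 ^ 30 := by omega
  obtain ⟨r1, r2⟩ := rel_two y (μ - μc) yc R2 hcY
  refine ⟨R1, R2, μ - μc, y - (yc : ℝ) / 2 ^ 30, μc, (yc : ℝ) / 2 ^ 30, X1, _, _, _,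
    ⟨hR1, r1⟩, hX1 _, r2, ?_, ?_, hF⟩
  · exact hch lp y0 yc y1 _ _ _ _ _ _ k1 k2 (Or.inr (s3.subset hsub (convex_Icc _ _)))
      (s4.mono hsub) (s1 y0 k0.le).1 (s1 y0 k0.le).2 (s1 yc kc.le).1 (s1 yc kc.le).2
      (s1 y1 k3.le).1 (s1 y1 k3.le).2 (μ - μc) y hyy
  · exact hch (fun y => - lm y) y0 yc y1 _ _ _ _ _ _ k1 k2
      (Or.inl (s5.subset hsub (convex_Icc _ _)))
      (s6.mono hsub) (s2 y0 k0).1 (s2 y0 k0).2 (s2 yc kc).1 (s2 yc kc).2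
      (s2 y1 k3).1 (s2 y1 k3).2 (μ - μc) y hyy

theorem stripE_find (F : ℕ → ℕ → A → A → Bool) (j j1 : ℕ)
    (bs : List ℕ) (hS : stripE F j j1 bs = true) (hj : j < j1)
    (hbs : bs ≠ []) (μ y : ℝ) (hμ : 0 ≤ μ) (hμl : μ * 4096 ≤ ((bs.getLastD 0 : ℕ) : ℝ))
    (hyj : (j : ℝ) / 4096 ≤ y) (hyj1 : y ≤ (j1 : ℝ) / 4096) :
    ∃ (R1 R2 : ℕ) (a b μc yc : ℝ) (X1 X2 : A), Disp R1 R2 a b ∧
    Rel a b X1 μc μ ∧ Rel a b X2 yc y ∧ F R1 R2 X1 X2 = true := by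
  unfold stripE at hS
  simp only at hS
  obtain ⟨R1, μc, X1, hR1, hX1, hF⟩ := box_lemma _ bs 0 hS hbs μ (by simpa using by positivity) hμl
  obtain ⟨yc, hyc'⟩ : ∃ yc : ℕ, yc = Nat.mul 131072 (Nat.add j j1) := ⟨_, rfl⟩
  obtain ⟨R2, hR2⟩ : ∃ R2 : ℕ, R2 = Nat.mul 131072 (Nat.sub j1 j) := ⟨_, rfl⟩
  rw [← hyc', ← hR2] at hF
  have gc : yc = 131072 * (j + j1) := hyc'
  have g2 : R2 = 131072 * (j1 - j) := hR2
  have hcY : |y * 2 ^ 30 - (yc : ℝ)| ≤ (R2 : ℝ) := by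
    have b2 : (R2 : ℝ) = 131072 * ((j1 : ℝ) - j) := by
      rw [g2, Nat.cast_mul, Nat.cast_sub hj.le]; push_cast; ring
    have bc : (yc : ℝ) = 131072 * ((j : ℝ) + j1) := by
      rw [gc]; push_cast; ring
    rw [abs_le, b2, bc]
    constructor <;> nlinarith
  obtain ⟨r1, r2⟩ := rel_two y (μ - μc) yc R2 hcY
  exact ⟨R1, R2, μ - μc, y - (yc : ℝ) / 2 ^ 30, μc, (yc : ℝ) / 2 ^ 30, X1, _,
    ⟨hR1, r1⟩, hX1 _, r2, hF⟩

/-- driver for `stripD` -/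
theorem drvD (hch : S_CH) (hlg : S_LG) (F : ℕ → ℕ → A → A → A → A → Bool) (cap j0 : ℕ)
    (l : List (ℕ × List ℕ)) (hcap : 0 < cap) (hs : stripsG (okCap cap) (stripD F) j0 l = true)
    (e : ℕ) (he : stripsEnd j0 l = e) (he1 : e ≤ 4095) (hlt : j0 < e)
    (μ y : ℝ) (hμ : 0 ≤ μ) (hμc : μ * 4096 ≤ cap)
    (hy0 : (j0 : ℝ) / 4096 ≤ y) (hy1 : y ≤ (e : ℝ) / 4096) :
    ∃ (R1 R2 : ℕ) (a b μc yc : ℝ) (X1 X2 X3 X4 : A), Disp R1 R2 a b ∧
    Rel a b X1 μc μ ∧ Rel a b X2 yc y ∧ Rel a b X3 (lp yc) (lp y) ∧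
    Rel a b X4 (- lm yc) (- lm y) ∧ F R1 R2 X1 X2 X3 X4 = true := by
  subst he
  obtain ⟨j, j1, bs, hj, hj1, hyj, hyj1, hlast, hS⟩ :=
    strips_findG (okCap cap) (stripD F) l j0 hs hlt y hy0 hy1
  obtain ⟨hbs, hμl⟩ := last_okCap cap j bs hcap hlast μ hμc
  exact stripD_find hch hlg F j j1 bs hS hj (hj1.trans he1) hbs μ y hμ hμl hyj hyj1

/-- driver for chart B -/
theorem drvB (F : ℕ → ℕ → A → A → Bool) (cap j0 : ℕ)
    (l : List (ℕ × List ℕ)) (hcap : 0 < cap) (hs : stripsG (okCap cap) (stripE F) j0 l = true)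
    (e : ℕ) (he : stripsEnd j0 l = e) (hlt : j0 < e)
    (μ y : ℝ) (hμ : 0 ≤ μ) (hμc : μ * 4096 ≤ cap)
    (hy0 : (j0 : ℝ) / 4096 ≤ y) (hy1 : y ≤ (e : ℝ) / 4096) :
    ∃ (R1 R2 : ℕ) (a b μc yc : ℝ) (X1 X2 : A), Disp R1 R2 a b ∧
    Rel a b X1 μc μ ∧ Rel a b X2 yc y ∧ F R1 R2 X1 X2 = true := by
  subst he
  obtain ⟨j, j1, bs, hj, hj1, hyj, hyj1, hlast, hS⟩ :=
    strips_findG (okCap cap) (stripE F) l j0 hs hlt y hy0 hy1
  obtain ⟨hbs, hμl⟩ := last_okCap cap j bs hcap hlast μ hμc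
  exact stripE_find F j j1 bs hS hj hbs μ y hμ hμl hyj hyj1

/-- driver for chart A -/
theorem drvA (F : ℕ → ℕ → A → A → Bool) (cap i0 j0 : ℕ)
    (l : List (ℕ × List ℕ)) (hcap : 0 < cap) (hi0 : 0 < i0)
    (hs : stripsG (okA cap i0) (stripE F) j0 l = true)
    (e : ℕ) (he : stripsEnd j0 l = e) (he1 : e ≤ 4096) (hlt : j0 < e)
    (μ io y : ℝ) (hμ : 0 ≤ μ) (hμc : μ * 4096 ≤ cap) (hio : io * 4096 ≤ i0)
    (hrel : μ * y = io * (1 - y))
    (hy0 : (j0 : ℝ) / 4096 ≤ y) (hy1 : y ≤ (e : ℝ) / 4096) :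
    ∃ (R1 R2 : ℕ) (a b μc yc : ℝ) (X1 X2 : A), Disp R1 R2 a b ∧
    Rel a b X1 μc μ ∧ Rel a b X2 yc y ∧ F R1 R2 X1 X2 = true := by
  subst he
  obtain ⟨j, j1, bs, hj, hj1, hyj, hyj1, hlast, hS⟩ :=
    strips_findG (okA cap i0) (stripE F) l j0 hs hlt y hy0 hy1
  have hy1' : y ≤ 1 := by
    refine hy1.trans ?_
    rw [div_le_one (by norm_num)]
    exact_mod_cast he1
  obtain ⟨hbs, hμl⟩ := last_okA cap i0 j bs hcap hi0 (by omega) hlast μ io y hμ hμc hio hyj hy1' hrel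
  exact stripE_find F j j1 bs hS hj hbs μ y hμ hμl hyj hyj1

/-! ### constants -/

theorem log2pos : 0 < Real.log 2 := Real.log_pos one_lt_two

theorem cc_pos : 0 < cc := by
  unfold cc
  have := log2pos
  positivity

theorem rel_c (hL : S_LIN) (a b : ℝ) : Rel a b Ac cc cc := by
  apply hL.1
  have h1 := Real.log_two_gt_d9
  have h2 := Real.log_two_lt_d9
  have h3 := log2pos
  unfold cc
  rw [abs_le]
  have e : 1 / Real.log 2 * 2 ^ 30 = 2 ^ 30 / Real.log 2 := by ring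
  rw [e]
  constructor
  · rw [le_sub_iff_add_le, le_div_iff₀ h3]
    push_cast
    nlinarith
  · rw [sub_le_iff_le_add, div_le_iff₀ h3]
    push_cast
    nlinarith

theorem rel_l2 (hL : S_LIN) (a b : ℝ) : Rel a b Al2 (Real.log 2) (Real.log 2) := by
  apply hL.1
  have h1 := Real.log_two_gt_d9
  have h2 := Real.log_two_lt_d9
  rw [abs_le]
  constructor <;> push_cast <;> nlinarith

theorem rel_k (hL : S_LIN) (a b : ℝ) : Rel a b Ak (33 / 5) (33 / 5) := by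
  apply hL.1
  rw [abs_le]
  constructor <;> push_cast <;> norm_num

theorem rel_de (hL : S_LIN) (a b δ : ℝ) (h0 : 0 ≤ δ) (h1 : δ ≤ 1 / 1024) : Rel a b Ade δ δ := by
  apply hL.1
  rw [abs_le]
  constructor <;> push_cast <;> nlinarith

theorem rel_dzA (hL : S_LIN) (a b δ : ℝ) (h0 : 0 ≤ δ) (h1 : δ ≤ 4495 / 100000) : Rel a b AdzA δ δ := by
  apply hL.1
  rw [abs_le]
  constructor <;> push_cast <;> nlinarith

theorem rel_dzB (hL : S_LIN) (a b δ : ℝ) (h0 : 0 ≤ δ) (h1 : δ ≤ 4 / 1024) : Rel a b AdzB δ δ := by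
  apply hL.1
  rw [abs_le]
  constructor <;> push_cast <;> nlinarith

theorem lp_bounds (y : ℝ) (h0 : 4092 / 4096 ≤ y) (h1 : y < 1) :
    1 - 758000 / 2 ^ 30 ≤ lp y ∧ lp y ≤ 1 := by
  unfold lp
  constructor
  · have e : (1 + y : ℝ) = 2 * ((1 + y) / 2) := by ring
    rw [e, Real.logb_mul (by norm_num) (by positivity), Real.logb_self_eq_one (by norm_num)]
    have h2 : Real.logb 2 (2047 / 2048) ≤ Real.logb 2 ((1 + y) / 2) :=
      Real.logb_le_logb_of_le (by norm_num) (by norm_num) (by linarith)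
    have h3 : - (758000 / 2 ^ 30 : ℝ) ≤ Real.logb 2 (2047 / 2048) := by
      unfold Real.logb
      rw [le_div_iff₀ log2pos]
      have h4 : 1 - ((2047 : ℝ) / 2048)⁻¹ ≤ Real.log (2047 / 2048) :=
        Real.one_sub_inv_le_log_of_pos (by norm_num)
      have h5 := Real.log_two_gt_d9
      have h6 : (1 : ℝ) - ((2047 : ℝ) / 2048)⁻¹ = - (1 / 2047) := by norm_num
      rw [h6] at h4
      refine le_trans ?_ h4
      have h7 : (1 : ℝ) / 2047 ≤ 758000 / 2 ^ 30 * 0.6931471803 := by norm_num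
      have h8 : (758000 / 2 ^ 30 : ℝ) * 0.6931471803 ≤ 758000 / 2 ^ 30 * Real.log 2 :=
        mul_le_mul_of_nonneg_left h5.le (by positivity)
      linarith
    linarith
  · have h2 : Real.logb 2 (1 + y) ≤ Real.logb 2 2 :=
      Real.logb_le_logb_of_le (by norm_num) (by linarith) (by linarith)
    rwa [Real.logb_self_eq_one (by norm_num)] at h2

theorem rel_lp (hL : S_LIN) (a b y : ℝ) (h0 : 4092 / 4096 ≤ y) (h1 : y < 1) :
    Rel a b Alp (lp y) (lp y) := by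
  apply hL.1
  obtain ⟨h2, h3⟩ := lp_bounds y h0 h1
  rw [abs_le]
  constructor <;> push_cast <;> nlinarith

/-- `L = -lm y ≥ 10` and `1 - y = 2^(-L)` -/
theorem L_ge (y : ℝ) (h0 : 4092 / 4096 ≤ y) (h1 : y < 1) :
    10 ≤ - lm y ∧ 1 - y = Real.exp (- (- lm y * Real.log 2)) := by
  have hpos : 0 < 1 - y := by linarith
  have hl := log2pos
  have e : - lm y * Real.log 2 = - Real.log (1 - y) := by
    unfold lm Real.logb
    field_simp
  constructor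
  · have h2 : Real.log (1 - y) ≤ Real.log ((2 : ℝ) ^ (-10 : ℤ)) := by
      apply Real.log_le_log hpos
      norm_num
      linarith
    rw [Real.log_zpow] at h2
    have h3 : (10 : ℝ) * Real.log 2 ≤ - lm y * Real.log 2 := by
      rw [e]
      push_cast at h2
      linarith
    exact le_of_mul_le_mul_right h3 hl
  · rw [e, neg_neg, Real.exp_log hpos]

/-- `δ/ζ² ≤ .04495` -/
theorem dz_le (y μ : ℝ) (h0 : 4092 / 4096 ≤ y) (h1 : y < 1) (hμ0 : 0 < μ)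
    (hμ : μ * 4096 ≤ 2368) :
    (1 - y) / (1 / (1 + μ * (- lm y))) ^ 2 ≤ 4495 / 100000 := by
  obtain ⟨hL, hd⟩ := L_ge y h0 h1
  set L := - lm y with hLdef
  obtain ⟨s, hs⟩ : ∃ s, L = 10 + s := ⟨L - 10, by ring⟩
  have hs0 : 0 ≤ s := by linarith
  have hl := log2pos
  have hl1 := Real.log_two_gt_d9
  have hden : 0 < 1 + μ * L := by positivity
  have e1 : (1 - y) / (1 / (1 + μ * L)) ^ 2 = (1 - y) * (1 + μ * L) ^ 2 := by
    field_simp
  rw [e1]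
  have e2 : 1 + μ * L ≤ (1 + 10 * μ) * (1 + s / 10) := by
    rw [hs]
    nlinarith [mul_nonneg hμ0.le hs0]
  have e3 : (1 + s / 10) ≤ Real.exp (s * Real.log 2 / 2) := by
    have := Real.add_one_le_exp (s * Real.log 2 / 2)
    nlinarith
  have e4 : 1 + 10 * μ ≤ 6.78125 := by linarith
  have e5 : 1 + μ * L ≤ 6.78125 * Real.exp (s * Real.log 2 / 2) := by
    refine e2.trans ?_
    exact mul_le_mul e4 e3 (by positivity) (by norm_num)
  have e6 : (1 + μ * L) ^ 2 ≤ 6.78125 ^ 2 * Real.exp (s * Real.log 2) := by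
    have : (1 + μ * L) ^ 2 ≤ (6.78125 * Real.exp (s * Real.log 2 / 2)) ^ 2 :=
      pow_le_pow_left₀ hden.le e5 2
    refine this.trans (le_of_eq ?_)
    rw [mul_pow, ← Real.exp_nat_mul]
    congr 2
    push_cast
    ring
  have e7 : 1 - y = 1 / 1024 * Real.exp (-(s * Real.log 2)) := by
    rw [hd, hs]
    have : -((10 + s) * Real.log 2) = -(10 * Real.log 2) + -(s * Real.log 2) := by ring
    rw [this, Real.exp_add]
    congr 1
    have h10 : Real.exp (-(10 * Real.log 2)) = ((2 : ℝ) ^ 10)⁻¹ := by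
      rw [Real.exp_neg, mul_comm, Real.exp_mul, Real.exp_log (by norm_num)]
      norm_num
    rw [h10]
    norm_num
  rw [e7]
  calc 1 / 1024 * Real.exp (-(s * Real.log 2)) * (1 + μ * L) ^ 2
      ≤ 1 / 1024 * Real.exp (-(s * Real.log 2)) * (6.78125 ^ 2 * Real.exp (s * Real.log 2)) :=
        mul_le_mul_of_nonneg_left e6 (by positivity)
    _ = 6.78125 ^ 2 / 1024 * (Real.exp (-(s * Real.log 2)) * Real.exp (s * Real.log 2)) := by ring
    _ = 6.78125 ^ 2 / 1024 := by rw [← Real.exp_add]; simp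
    _ ≤ 4495 / 100000 := by norm_num

end Pool.MP324.H61
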